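import Pool.Agent.Q161.SX.Stm
import Pool.Agent.Y536.PS.CONJ

/-! Job PRM of project SX: the primes of `L` above `l` and the embeddings of `L` in `A`. -/

set_option autoImplicit false

open NumberField IsDedekindDomain

namespace Pool.Agent.Q38.SX

open Pool.Agent.Q161.SX Pool.Agent.Q51.EL
open Pool.Agent.W623.SecC (IsU)

theorem isU_iff {K : Type*} [Field K] (V : ValuationSubring K) (x : K) :
    IsU V x ↔ V.valuation x = 1 := by
  constructor
  · rintro ⟨h0, h1, h2⟩
    refine le_antisymm ((V.valuation_le_one_iff x).2 h1) ?_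
    have h3 := (V.valuation_le_one_iff _).2 h2
    rw [map_inv₀] at h3
    exact (inv_le_one₀ (lt_of_le_of_ne zero_le (Ne.symm ((Valuation.ne_zero_iff _).2 h0)))).1 h3
  · intro h
    refine ⟨?_, ?_, ?_⟩
    · rintro rfl
      rw [map_zero] at h
      exact zero_ne_one h
    · rw [← V.valuation_le_one_iff, h]
    · rw [← V.valuation_le_one_iff, map_inv₀, h, inv_one]

section key

variable {A L : Type} [Field A] [Field L] [NumberField L] (V : ValuationSubring A) (j : L →+* A)
  (v : HeightOneSpectrum (𝓞 L)) (hV : ∀ a : 𝓞 L, j (a : L) ∈ V)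
  (hv : ∀ a : 𝓞 L, a ∈ v.asIdeal ↔ j (a : L) ∈ V.nonunits)

include hV hv in
theorem key (a : L) (ha : v.valuation L a ≤ 1) :
    V.valuation (j a) ≤ 1 ∧ (v.valuation L a < 1 ↔ V.valuation (j a) < 1) := by
  obtain ⟨n, d, hnd⟩ := v.exists_primeCompl_mul_eq_of_integer a ha
  have hd : V.valuation (j (d.1 : L)) = 1 := by
    refine le_antisymm ((V.valuation_le_one_iff _).2 (hV _)) (not_lt.1 fun h => ?_)
    rw [← ValuationSubring.mem_nonunits_iff, ← hv] at h
    exact d.2 h
  have hn : V.valuation (j a) = V.valuation (j (n : L)) := by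
    have h1 : j a * j (d.1 : L) = j (n : L) := by
      rw [← map_mul]
      exact congrArg j hnd
    rw [← h1, map_mul, hd, mul_one]
  have hd2 : v.valuation L (algebraMap (𝓞 L) L d.1) = 1 := by
    rw [HeightOneSpectrum.valuation_of_algebraMap]
    exact (v.intValuation_eq_one_iff_mem_primeCompl d.1).2 d.2
  have hn2 : v.valuation L a = v.valuation L (algebraMap (𝓞 L) L n) := by
    rw [← hnd, map_mul, hd2, mul_one]
  refine ⟨?_, ?_⟩
  · rw [hn]
    exact (V.valuation_le_one_iff _).2 (hV _)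
  · rw [hn, hn2, HeightOneSpectrum.valuation_lt_one_iff_mem, hv, ValuationSubring.mem_nonunits_iff]

include hV hv in
theorem isU_iff_val (a : L) (ha : a ≠ 0) : IsU V (j a) ↔ v.valuation L a = 1 := by
  rw [isU_iff]
  rcases le_or_gt (v.valuation L a) 1 with h | h
  · obtain ⟨h1, h2⟩ := key V j v hV hv a h
    constructor
    · intro h3
      refine le_antisymm h (not_lt.1 fun h4 => ?_)
      exact absurd h3 (h2.1 h4).ne
    · intro h3
      refine le_antisymm h1 (not_lt.1 fun h4 => ?_)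
      exact absurd h3 (h2.2 h4).ne
  · have h5 : v.valuation L a⁻¹ < 1 := by
      rw [map_inv₀]
      exact inv_lt_one_of_one_lt₀ h
    obtain ⟨-, h2⟩ := key V j v hV hv a⁻¹ h5.le
    have h3 := h2.1 h5
    constructor
    · intro h4
      rw [map_inv₀, map_inv₀, h4, inv_one] at h3
      exact absurd h3 (lt_irrefl _)
    · intro h4
      exact absurd h4 h.ne'

end key

theorem int_mem {A L : Type} [Field A] [Field L] [NumberField L] (V : ValuationSubring A)
    (j : L →+* A) (a : 𝓞 L) : j (a : L) ∈ V := by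
  refine Pool.Agent.Y536.PS.integral_mem (A := ℤ) V (fun n => ?_) _ ?_
  · rw [eq_intCast]
    exact intCast_mem V.toSubring n
  · have h := RingOfIntegers.isIntegral_coe a
    exact h.map (j.toIntAlgHom)

/-- the prime of `L` given by an embedding -/
theorem prm1 {A L : Type} [Field A] [CharZero A] [Field L] [NumberField L] (l : ℕ) (hl : l ≠ 0)
    (V : ValuationSubring A) (hlV : (l : A) ∈ V.nonunits) (j : L →+* A) :
    ∃ v : HeightOneSpectrum (𝓞 L), Abv v l ∧
    (∀ a : 𝓞 L, a ∈ v.asIdeal ↔ j (a : L) ∈ V.nonunits) ∧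
    ∀ a : L, a ≠ 0 → (IsU V (j a) ↔ v.valuation L a = 1) := by
  let g : 𝓞 L →+* V := (j.comp (algebraMap (𝓞 L) L)).codRestrict V.toSubring fun a => int_mem V j a
  have hg : ∀ a : 𝓞 L, a ∈ (IsLocalRing.maximalIdeal V).comap g ↔ j (a : L) ∈ V.nonunits := by
    intro a
    rw [Ideal.mem_comap, ← ValuationSubring.coe_mem_nonunits_iff]
    rfl
  have hlP : (l : 𝓞 L) ∈ (IsLocalRing.maximalIdeal V).comap g := by
    rw [hg]
    have h1 : j (((l : 𝓞 L)) : L) = (l : A) := by
      rw [show (((l : 𝓞 L)) : L) = (l : L) from map_natCast (algebraMap (𝓞 L) L) l, map_natCast]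
    rw [h1]
    exact hlV
  let v : HeightOneSpectrum (𝓞 L) := ⟨(IsLocalRing.maximalIdeal V).comap g, inferInstance, by
    intro h0
    rw [h0, Ideal.mem_bot] at hlP
    have h2 : (l : 𝓞 L) ≠ 0 := by exact_mod_cast hl
    exact h2 hlP⟩
  exact ⟨v, hlP, hg, isU_iff_val V j v (int_mem V j) hg⟩

/-- **PRM** -/
theorem prm : S_CNJ → S_PRM := by
  intro hC A _ _ _ L _ _ l hl V hlV
  have : CharZero A := algebraRat.charZero A
  have : IsAlgClosed A := IsAlgClosure.isAlgClosed ℚ
  refine ⟨fun j => prm1 l hl.ne_zero V hlV (j : L →+* A), fun v hvl => ?_⟩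
  let j0 : L →ₐ[ℚ] A := IsAlgClosed.lift
  letI : Algebra L A := j0.toRingHom.toAlgebra
  obtain ⟨V', hV'⟩ := Pool.Agent.Y536.PS.extv L A (v.valuation L).valuationSubring
  have hval : ∀ x : L, V'.valuation (j0 x) < 1 ↔ v.valuation L x < 1 := by
    intro x
    have h1 := Pool.Agent.Y536.PS.comap_val_lt_one V' (algebraMap L A) x
    rw [hV'] at h1
    refine h1.symm.trans ?_
    rw [Pool.Agent.Y536.PS.val_lt_one_iff, Valuation.mem_valuationSubring_iff]
    constructor
    · rintro (rfl | h)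
      · rw [map_zero]
        exact zero_lt_one
      · rw [not_le, map_inv₀] at h
        by_contra hcon
        exact absurd h (not_lt.2 (inv_le_one_of_one_le₀ (not_lt.1 hcon)))
    · intro h
      by_cases hx : x = 0
      · exact Or.inl hx
      · right
        rw [not_le, map_inv₀]
        exact (one_lt_inv₀ (lt_of_le_of_ne zero_le
          (Ne.symm ((Valuation.ne_zero_iff _).2 hx)))).2 h
  have hlV' : (l : A) ∈ V'.nonunits := by
    rw [ValuationSubring.mem_nonunits_iff]
    have h1 := (hval (((l : 𝓞 L)) : L)).2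
      ((HeightOneSpectrum.valuation_lt_one_iff_mem v (l : 𝓞 L)).2 hvl)
    have h2 : j0 (((l : 𝓞 L)) : L) = (l : A) := by
      rw [show (((l : 𝓞 L)) : L) = (l : L) from map_natCast (algebraMap (𝓞 L) L) l, map_natCast]
    rwa [h2] at h1
  obtain ⟨τ, hτ⟩ := hC A l hl V V' hlV hlV'
  refine ⟨(τ.symm : A →ₐ[ℚ] A).comp j0, fun a => ?_⟩
  rw [← HeightOneSpectrum.valuation_lt_one_iff_mem (K := L), ← hval,
    Pool.Agent.Y536.PS.val_lt_one_iff, ValuationSubring.mem_nonunits_iff,
    Pool.Agent.Y536.PS.val_lt_one_iff]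
  change _ ↔ τ.symm (j0 (a : L)) = 0 ∨ (τ.symm (j0 (a : L)))⁻¹ ∉ V
  rw [← hτ, map_inv₀, AlgEquiv.apply_symm_apply, map_eq_zero_iff _ τ.symm.injective]

end Pool.Agent.Q38.SX
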