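import Pool.Agent.Q161.SX.Stm
import Pool.Agent.Q239.EL.CL

/-! Job CLU of project SX: generators of products of primes. -/

set_option autoImplicit false

open NumberField IsDedekindDomain

namespace Pool.Agent.Q38.SX

open Pool.Agent.Q161.SX Pool.Agent.Q239.EL

/-- **CLU** -/
theorem clu : Pool.Agent.Q51.EL.S_UN → S_CLU := by
  classical
  intro hUN L _ _
  obtain ⟨C1, hC1, hU⟩ := hUN L
  have hsur : ∀ g : ClassGroup (𝓞 L), ∃ I : nonZeroDivisors (Ideal (𝓞 L)), ClassGroup.mk0 I = g :=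
    ClassGroup.mk0_surjective
  choose c hc using hsur
  have hc0 : ∀ g, (c g : Ideal (𝓞 L)) ≠ 0 := fun g => nonZeroDivisors.ne_zero (c g).2
  have hcn : ∀ g, Ideal.absNorm (c g : Ideal (𝓞 L)) ≠ 0 := fun g => by
    rw [Ne, Ideal.absNorm_eq_zero_iff]
    exact hc0 g
  set B : ℕ := ∏ g : ClassGroup (𝓞 L), Ideal.absNorm (c g : Ideal (𝓞 L)) with hB
  have hB0 : B ≠ 0 := Finset.prod_ne_zero_iff.mpr fun g _ => hcn g
  have hcv : ∀ v : HeightOneSpectrum (𝓞 L), (B : 𝓞 L) ∉ v.asIdeal → ∀ g, mu v (c g) = 0 := by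
    intro v hv g
    apply mu_eq_zero
    intro hd
    apply hv
    have h1 : (c g : Ideal (𝓞 L)) ≤ v.asIdeal := Ideal.dvd_iff_le.mp hd
    have h2 := h1 (Ideal.absNorm_mem (c g : Ideal (𝓞 L)))
    obtain ⟨m, hm⟩ : Ideal.absNorm (c g : Ideal (𝓞 L)) ∣ B :=
      Finset.dvd_prod_of_mem _ (Finset.mem_univ g)
    rw [hm, Nat.cast_mul]
    exact Ideal.mul_mem_right _ _ h2
  have hBr : (0 : ℝ) < (B : ℝ) := by
    have : 0 < B := Nat.pos_of_ne_zero hB0
    exact_mod_cast this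
  refine ⟨B, C1 * (B : ℝ) ^ ((1 : ℝ) / Module.finrank ℚ L), hB0,
    mul_pos hC1 (Real.rpow_pos_of_pos hBr _), fun S hS => ?_⟩
  set J : Ideal (𝓞 L) := ∏ v ∈ S, v.asIdeal with hJ
  have hJ0 : J ≠ 0 := Finset.prod_ne_zero_iff.mpr fun w _ => w.ne_bot
  set g := ClassGroup.mk0 (⟨J, mem_nonZeroDivisors_of_ne_zero hJ0⟩ :
    nonZeroDivisors (Ideal (𝓞 L))) with hg
  have hone : ClassGroup.mk0 (c g⁻¹ * ⟨J, mem_nonZeroDivisors_of_ne_zero hJ0⟩) = 1 := by
    rw [map_mul, hc, ← hg, inv_mul_cancel]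
  rw [ClassGroup.mk0_eq_one_iff] at hone
  obtain ⟨α0, hα0'⟩ := (Submodule.isPrincipal_iff _).1 hone
  have hα0 : (c g⁻¹ : Ideal (𝓞 L)) * J = Ideal.span {α0} := hα0'
  have hne : (c g⁻¹ : Ideal (𝓞 L)) * J ≠ 0 := mul_ne_zero (hc0 _) hJ0
  have hα0n : α0 ≠ 0 := by
    rintro rfl
    rw [hα0, Ideal.zero_eq_bot, Ne, Ideal.span_singleton_eq_bot] at hne
    exact hne rfl
  obtain ⟨u, hu⟩ := hU α0 hα0n
  have hspan : Ideal.span {α0 * (u : 𝓞 L) ^ 2} = Ideal.span {α0} := by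
    rw [← Units.val_pow_eq_pow_val]
    exact Ideal.span_singleton_mul_right_unit (Units.isUnit _) _
  have hαn : α0 * (u : 𝓞 L) ^ 2 ≠ 0 := mul_ne_zero hα0n (pow_ne_zero _ u.ne_zero)
  refine ⟨α0 * (u : 𝓞 L) ^ 2, hαn, ?_, ?_⟩
  · intro v hv
    have hm : mu v (Ideal.span {α0}) = if v ∈ S then 1 else 0 := by
      rw [← hα0, mu_mul v (hc0 _) hJ0, hcv v hv, hJ, mu_prod, zero_add]
    rw [val_int v hαn, hspan, hm]
    constructor
    · intro hvS
      rw [if_pos hvS]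
      norm_num
    · intro hvS
      rw [if_neg hvS]
      simp
  · intro σ
    refine (hu σ).trans ?_
    rw [mul_assoc]
    refine mul_le_mul_of_nonneg_left ?_ hC1.le
    rw [← Real.mul_rpow hBr.le (Finset.prod_nonneg fun v _ => Nat.cast_nonneg _)]
    refine Real.rpow_le_rpow (Nat.cast_nonneg _) ?_ (by positivity)
    have h3 : Ideal.absNorm (Ideal.span {α0}) ≤ B * ∏ v ∈ S, Ideal.absNorm v.asIdeal := by
      rw [← hα0, map_mul, hJ, map_prod]
      refine Nat.mul_le_mul_right _ ?_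
      exact Nat.le_of_dvd (Nat.pos_of_ne_zero hB0) (Finset.dvd_prod_of_mem _ (Finset.mem_univ _))
    exact_mod_cast h3

end Pool.Agent.Q38.SX
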