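import Pool.Agent.Q38.SX.PRM

/-! Job EVN of project SX: even parity at all primes from even parity of all conjugates at one
place. -/

set_option autoImplicit false

open NumberField IsDedekindDomain

namespace Pool.Agent.Q38.SX

open Pool.Agent.Q161.SX Pool.Agent.Q51.EL
open Pool.Agent.W623.SecC (IsU)

/-- **EVN** -/
theorem evn : S_PRM → S_EVN := by
  intro hP A _ _ _ K _ l hl V hlV u hu hpv w hw
  have : CharZero A := algebraRat.charZero A
  have : IsAlgClosed A := IsAlgClosure.isAlgClosed ℚ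
  have : Algebra.IsAlgebraic ℚ A := IsAlgClosure.isAlgebraic
  have : Normal ℚ A := IsAlgClosure.normal ℚ A
  obtain ⟨j, hj⟩ := (hP A K l hl V hlV).2 w hw
  let τ : A ≃ₐ[ℚ] A := AlgEquiv.ofBijective (j.liftNormal A)
    (Algebra.IsAlgebraic.algHom_bijective _)
  have hτ : ∀ x : K, τ (x : A) = j x := fun x => j.liftNormal_commutes A x
  obtain ⟨m, hm⟩ := hpv τ
  have hl0 : (l : K) ≠ 0 := by exact_mod_cast hl.ne_zero
  have hq : u / (l : K) ^ (0 + 2 * m) ≠ 0 := div_ne_zero hu (zpow_ne_zero _ hl0)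
  have h1 : (j : K →+* A) (u / (l : K) ^ (0 + 2 * m)) = τ (u : A) / (l : A) ^ (0 + 2 * m) := by
    rw [hτ, map_div₀, map_zpow₀, map_natCast]
    rfl
  have h2 := (isU_iff_val V (j : K →+* A) w (int_mem V _) hj _ hq).1 (h1 ▸ hm)
  have h3 : w.valuation K (l : K) ≠ 0 := (Valuation.ne_zero_iff _).mpr hl0
  obtain ⟨n, hn⟩ : ∃ n : ℤ, w.valuation K (l : K) = WithZero.exp n :=
    ⟨WithZero.log (w.valuation K (l : K)), (WithZero.exp_log h3).symm⟩
  refine ⟨m * n, ?_⟩
  rw [map_div₀, map_zpow₀, div_eq_one_iff_eq (zpow_ne_zero _ h3), hn, ← WithZero.exp_zsmul] at h2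
  rw [h2]
  congr 1
  simp only [smul_eq_mul]
  ring

end Pool.Agent.Q38.SX
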