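import Pool.Agent.Q161.SX.Stm
import Pool.Agent.Q239.EL.CL

/-! Job SEL of project SX: the elements with even valuations outside `B` form finitely many square
classes. -/

set_option autoImplicit false

open NumberField IsDedekindDomain

namespace Pool.Agent.Q38.SX

open Pool.Agent.Q161.SX Pool.Agent.Q239.EL Pool.Agent.Q51.EL

/-- the parity of the valuation is `0` or `1` -/
theorem par_dich {L : Type} [Field L] [NumberField L] (v : HeightOneSpectrum (𝓞 L)) {x : L}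
    (hx : x ≠ 0) : Par v x 0 ∨ Par v x 1 := by
  have h1 : v.valuation L x ≠ 0 := (Valuation.ne_zero_iff _).mpr hx
  obtain ⟨m, hm⟩ : ∃ m : ℤ, v.valuation L x = WithZero.exp m :=
    ⟨WithZero.log (v.valuation L x), (WithZero.exp_log h1).symm⟩
  rcases Int.even_or_odd' m with ⟨k, rfl | rfl⟩
  · left
    exact ⟨k, by rw [hm, zero_add]⟩
  · right
    exact ⟨k, by rw [hm, add_comm]⟩

/-- **SEL** -/
theorem sel : Pool.Agent.Q51.EL.S_CL → Pool.Agent.Q51.EL.S_UN → S_SEL := by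
  classical
  intro hCL hUN K _ _ B hB
  obtain ⟨B0, C, hB0, hC, hcl⟩ := hCL K
  obtain ⟨C1, hC1, hU⟩ := hUN K
  have hW : {v : HeightOneSpectrum (𝓞 K) | (B : 𝓞 K) ∈ v.asIdeal}.Finite := by
    have h1 := Ideal.finite_factors (R := 𝓞 K) (I := Ideal.span {(B : 𝓞 K)})
      (span_ne (by exact_mod_cast hB))
    refine h1.subset ?_
    intro v hv
    rw [Set.mem_ofPred_eq, Ideal.dvd_iff_le, Ideal.span_singleton_le_iff_mem]
    exact hv
  set W := hW.toFinset with hWd
  set R : ℝ := C1 * (C * ∏ v ∈ W, ((Ideal.absNorm v.asIdeal : ℕ) : ℝ)) ^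
    ((1 : ℝ) / Module.finrank ℚ K) with hR
  have hfin := NumberField.Embeddings.finite_of_norm_le K ℂ R
  refine ⟨hfin.toFinset.erase 0, Finset.notMem_erase _ _, fun u hu hpar => ?_⟩
  set S := W.filter fun v => Par v u 1 with hS
  obtain ⟨η, α, hη, hα, -, hn⟩ := hcl u S hu (by
    intro v hv
    constructor
    · intro hvS
      exact (Finset.mem_filter.1 hvS).2
    · intro hvS
      by_cases hvB : (B : 𝓞 K) ∈ v.asIdeal
      · rcases par_dich v hu with h | h
        · exact h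
        · exact absurd (Finset.mem_filter.2 ⟨hW.mem_toFinset.2 hvB, h⟩) hvS
      · exact hpar v hvB)
  have hα0 : α ≠ 0 := by
    rintro rfl
    have h1 : ((0 : 𝓞 K) : K) = 0 := map_zero _
    rw [h1] at hα
    exact mul_ne_zero hu (pow_ne_zero _ hη) hα.symm
  obtain ⟨e, he⟩ := hU α hα0
  have he0 : ((e : 𝓞 K) : K) ≠ 0 := coe_ne e.ne_zero
  have hcoe : ((α * (e : 𝓞 K) ^ 2 : 𝓞 K) : K) = u * η ^ 2 * ((e : 𝓞 K) : K) ^ 2 := by
    have h1 : ((α * (e : 𝓞 K) ^ 2 : 𝓞 K) : K) = (α : K) * ((e : 𝓞 K) : K) ^ 2 :=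
      (map_mul (algebraMap (𝓞 K) K) _ _).trans
        (congrArg _ (map_pow (algebraMap (𝓞 K) K) _ _))
    rw [h1, hα]
  refine ⟨((α * (e : 𝓞 K) ^ 2 : 𝓞 K) : K), ?_, (η * ((e : 𝓞 K) : K))⁻¹,
    inv_ne_zero (mul_ne_zero hη he0), ?_⟩
  · refine Finset.mem_erase.2 ⟨coe_ne (mul_ne_zero hα0 (pow_ne_zero _ e.ne_zero)), ?_⟩
    rw [Set.Finite.mem_toFinset]
    refine ⟨RingOfIntegers.isIntegral_coe _, fun φ => (he φ).trans ?_⟩
    rw [hR]
    refine mul_le_mul_of_nonneg_left ?_ hC1.le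
    refine Real.rpow_le_rpow (Nat.cast_nonneg _) (hn.trans ?_) (by positivity)
    refine mul_le_mul_of_nonneg_left ?_ hC.le
    refine Finset.prod_le_prod_of_subset_of_one_le (Finset.filter_subset _ _)
      (fun v _ => Nat.cast_nonneg _) (fun v _ _ => one_le_norm v)
  · rw [hcoe]
    field_simp

end Pool.Agent.Q38.SX
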