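import Pool.Agent.Q120.SX.Stm
import Pool.Agent.Q184.LG.GLO

/-!
# Project SX (helper120), job SPL (helper38): patterns of consecutive gaps in the model
-/

set_option autoImplicit false

namespace Pool.Agent.Q38.SX

open Finset MeasureTheory Filter Pool.Agent.Q120.ET Pool.Agent.Q120.GM Pool.Agent.Q120.GE Pool.Agent.Q120.SI
  Pool.Agent.Q120.SX
open Pool.Agent.Q184.LG (pc_block)
open scoped Topology

/-- translation -/
def shf (a : ℕ) (B : Finset ℕ) : Finset ℕ := B.image (fun i => a + i)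

theorem mem_shf {a n : ℕ} {B : Finset ℕ} : n ∈ shf a B ↔ ∃ i ∈ B, a + i = n := by
  unfold shf
  rw [mem_image]

theorem card_shf (a : ℕ) (B : Finset ℕ) : (shf a B).card = B.card :=
  card_image_of_injective _ (add_right_injective a)

section

variable {Ω : Type*} [MeasurableSpace Ω] {μ : Measure Ω} [IsProbabilityMeasure μ] {A : Ω → Set ℕ}

/-- in the window `[a, a + H)` exactly the `a + i`, `i ∈ B`, are elements -/
def GP (A : Ω → Set ℕ) (B : Finset ℕ) (H a : ℕ) : Set Ω := all A (shf a B) ∩ free A (shf a (range H \ B))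

omit [MeasurableSpace Ω] in
theorem GP_F {B : Finset ℕ} {H : ℕ} (hB : B ⊆ range H) (a : ℕ) :
    MeasurableSet[F A (↑(Ico a (a + H)) : Set ℕ)] (GP A B H a) := by
  unfold GP
  refine MeasurableSet.inter (F_all fun n hn => ?_) (F_free fun n hn => ?_)
  · obtain ⟨i, hi, rfl⟩ := mem_shf.1 hn
    have := mem_range.1 (hB hi)
    simp only [coe_Ico, Set.mem_Ico]
    omega
  · obtain ⟨i, hi, rfl⟩ := mem_shf.1 hn
    have := mem_range.1 (mem_sdiff.1 hi).1
    simp only [coe_Ico, Set.mem_Ico]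
    omega

theorem GP_real (hA : IsModel μ pc A) (B : Finset ℕ) (H a : ℕ) :
    μ.real (GP A B H a) = (∏ n ∈ shf a B, pc n) * ∏ n ∈ shf a (range H \ B), (1 - pc n) := by
  unfold GP
  rw [indep_real hA (S := (↑(shf a B) : Set ℕ)) (T := (↑(shf a (range H \ B)) : Set ℕ)) ?_
    (F_all fun n hn => hn) (F_free fun n hn => hn), real_all hA, real_free hA]
  rw [Set.disjoint_left]
  intro n hn hn'
  rw [mem_coe] at hn hn'
  obtain ⟨i, hi, rfl⟩ := mem_shf.1 hn
  obtain ⟨j, hj, h⟩ := mem_shf.1 hn'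
  have : j = i := by omega
  subst this
  exact (mem_sdiff.1 hj).2 hi

theorem GP_low {k : ℕ} (hk : 3 ≤ k) (hA : IsModel μ pc A) {B : Finset ℕ} {H a m : ℕ}
    (hB : B ⊆ range H) (hBm : B.card ≤ m) (ha : 2 ^ k ≤ a) (haH : a + H ≤ 2 ^ (k + 1)) {δ : ℝ} (hδ : 0 < δ)
    (hδk : 1 + δ ≤ δ * (k * Real.log 2)) :
    (1 / ((k : ℝ) + 1)) ^ m * Real.exp (-((1 + δ) * H / (k * Real.log 2))) ≤ μ.real (GP A B H a) := by
  have hl0 : 0 < Real.log 2 := Real.log_pos (by norm_num)
  have hl1 : Real.log 2 ≤ 1 := by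
    have := Real.log_two_lt_d9
    linarith
  have hk2 : 2 ≤ k := by omega
  have hk0 : (0 : ℝ) < k := by exact_mod_cast (by omega : 0 < k)
  have hblk : ∀ i, i < H → a + i ∈ block k := by
    intro i hi
    unfold block
    rw [mem_Ico]
    omega
  rw [GP_real hA]
  have h1 : (1 / ((k : ℝ) + 1)) ^ m ≤ ∏ n ∈ shf a B, pc n := by
    have h2 : ∀ n ∈ shf a B, 1 / ((k : ℝ) + 1) ≤ pc n := by
      intro n hn
      obtain ⟨i, hi, rfl⟩ := mem_shf.1 hn
      have hab := hblk i (mem_range.1 (hB hi))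
      rw [pc_block hk2 hab]
      have ha3 := three_le_of_mem_block hk2 hab
      have h4 := one_lt_log ha3
      apply one_div_le_one_div_of_le (by linarith)
      have h5 : ((a + i : ℕ) : ℝ) ≤ (2 : ℝ) ^ (k + 1) := by
        have : a + i ≤ 2 ^ (k + 1) := by
          have := mem_range.1 (hB hi)
          omega
        exact_mod_cast this
      have h6 : (0 : ℝ) < ((a + i : ℕ) : ℝ) := by
        have : 0 < a + i := by omega
        exact_mod_cast this
      have h7 := Real.log_le_log h6 h5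
      rw [Real.log_pow] at h7
      push_cast at h7
      have h8 : ((k : ℝ) + 1) * Real.log 2 ≤ ((k : ℝ) + 1) * 1 := by gcongr
      push_cast
      linarith
    have h3 : (1 / ((k : ℝ) + 1)) ^ (shf a B).card ≤ ∏ n ∈ shf a B, pc n := by
      rw [← prod_const]
      exact prod_le_prod (fun _ _ => by positivity) h2
    refine le_trans ?_ h3
    rw [card_shf]
    apply pow_le_pow_of_le_one (by positivity) _ hBm
    rw [div_le_one (by positivity)]
    linarith
  have h2 : Real.exp (-((1 + δ) * H / (k * Real.log 2))) ≤ ∏ n ∈ shf a (range H \ B), (1 - pc n) := by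
    have hW : shf a (range H \ B) ⊆ block k := by
      intro n hn
      obtain ⟨i, hi, rfl⟩ := mem_shf.1 hn
      exact hblk i (mem_range.1 (mem_sdiff.1 hi).1)
    have h3 := le_prod_window hk hW hδ hδk
    have h4 : ∏ n ∈ shf a (range H \ B), (1 - pc n) = ∏ n ∈ shf a (range H \ B), (1 - 1 / Real.log n) :=
      prod_congr rfl fun n hn => by rw [pc_block hk2 (hW hn)]
    rw [h4]
    refine le_trans ?_ h3
    apply Real.exp_le_exp.2
    have h5 : ((shf a (range H \ B)).card : ℝ) ≤ H := by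
      rw [card_shf]
      have : (range H \ B).card ≤ (range H).card := card_le_card sdiff_subset
      rw [card_range] at this
      exact_mod_cast this
    have h6 : 0 < k * Real.log 2 := by positivity
    apply neg_le_neg
    gcongr
  exact mul_le_mul h1 h2 (Real.exp_pos _).le ((by positivity : (0 : ℝ) ≤ (1 / ((k : ℝ) + 1)) ^ m).trans h1)

/-- independent windows -/
theorem real_none_GP (hA : IsModel μ pc A) {B : Finset ℕ} {H : ℕ} (hB : B ⊆ range H) (a₀ J : ℕ) :
    μ.real (⋂ j ∈ range J, (GP A B H (a₀ + j * H))ᶜ) = ∏ j ∈ range J, (1 - μ.real (GP A B H (a₀ + j * H))) := by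
  classical
  rw [indep_many hA (range J) (fun j => (↑(Ico (a₀ + j * H) (a₀ + j * H + H)) : Set ℕ)) ?_ _
    (fun j _ => MeasurableSet.compl (GP_F hB _))]
  · refine prod_congr rfl fun j _ => ?_
    have h1 : MeasurableSet (GP A B H (a₀ + j * H)) := F_le hA _ _ (GP_F hB _)
    rw [probReal_compl_eq_one_sub h1]
  · intro i _ j _ hij
    rw [Set.disjoint_left]
    intro n hn hn'
    simp only [coe_Ico, Set.mem_Ico] at hn hn'
    rcases Nat.lt_or_gt_of_ne hij with h1 | h1
    · have h2 : (i + 1) * H ≤ j * H := Nat.mul_le_mul_right _ h1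
      have h3 : (i + 1) * H = i * H + H := by ring
      omega
    · have h2 : (j + 1) * H ≤ i * H := Nat.mul_le_mul_right _ h1
      have h3 : (j + 1) * H = j * H + H := by ring
      omega

end

/-! ### the offsets -/

section offs

variable {m : ℕ}

/-- the gaps -/
noncomputable def gp (c : Fin m → ℝ) (k t : ℕ) : ℕ :=
  if ht : t < m then ⌈c ⟨t, ht⟩ * (k * Real.log 2) ^ 2⌉₊ else 0

/-- the offsets -/
noncomputable def of (c : Fin m → ℝ) (k i : ℕ) : ℕ := ∑ t ∈ range i, gp c k t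

/-- the set of the offsets -/
noncomputable def oB (c : Fin m → ℝ) (k : ℕ) : Finset ℕ := (range (m + 1)).image (of c k)

theorem of_succ (c : Fin m → ℝ) (k i : ℕ) : of c k (i + 1) = of c k i + gp c k i := sum_range_succ _ _

theorem of_mono (c : Fin m → ℝ) (k : ℕ) : Monotone (of c k) :=
  monotone_nat_of_le_succ fun i => by rw [of_succ]; omega

theorem oB_sub (c : Fin m → ℝ) (k : ℕ) : oB c k ⊆ range (of c k m + 1) := by
  intro n hn
  unfold oB at hn
  obtain ⟨i, hi, rfl⟩ := mem_image.1 hn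
  rw [mem_range] at hi ⊢
  have := of_mono c k (by omega : i ≤ m)
  omega

theorem oB_card (c : Fin m → ℝ) (k : ℕ) : (oB c k).card ≤ m + 1 := by
  unfold oB
  refine card_image_le.trans ?_
  rw [card_range]

theorem of_le (c : Fin m → ℝ) (hc : ∀ i, 0 < c i) (k : ℕ) :
    (of c k m : ℝ) ≤ (∑ i, c i) * (k * Real.log 2) ^ 2 + m := by
  unfold of
  rw [sum_range, Nat.cast_sum, sum_mul]
  have h1 : ∀ i : Fin m, ((gp c k i : ℕ) : ℝ) ≤ c i * (k * Real.log 2) ^ 2 + 1 := by
    intro i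
    unfold gp
    rw [dif_pos i.2]
    exact (Nat.ceil_lt_add_one (mul_nonneg (hc i).le (sq_nonneg _))).le
  refine (sum_le_sum fun i _ => h1 i).trans ?_
  rw [sum_add_distrib]
  simp

theorem GP_pat {Ω : Type*} [MeasurableSpace Ω] {A : Ω → Set ℕ} (c : Fin m → ℝ) (hc : ∀ i, 0 < c i) {ε : ℝ} {k a : ℕ}
    (hL : 0 < k * Real.log 2) (hε : 1 ≤ ε * (k * Real.log 2) ^ 2) (ha : 2 ^ k ≤ a)
    (haH : a + (of c k m + 1) ≤ 2 ^ (k + 1)) {ω : Ω} (hω : ω ∈ GP A (oB c k) (of c k m + 1) a) :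
    Pat m c ε k (tr A (block k) ω) := by
  have hblk : ∀ i, i < of c k m + 1 → a + i ∈ block k := by
    intro i hi
    unfold block
    rw [mem_Ico]
    omega
  refine ⟨fun i => a + of c k i, fun i hi => ?_, fun i => ?_⟩
  · have h1 := of_mono c k hi
    refine mem_tr.2 ⟨hblk _ (by omega), hω.1 _ (mem_shf.2 ⟨_, ?_, rfl⟩)⟩
    exact mem_image.2 ⟨i, mem_range.2 (by omega), rfl⟩
  · have hg : gp c k i = ⌈c i * (k * Real.log 2) ^ 2⌉₊ := by
      unfold gp
      rw [dif_pos i.2]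
    have hgpos : 0 < gp c k i := by
      rw [hg, Nat.ceil_pos]
      have := hc i
      positivity
    have hs := of_succ c k i
    refine ⟨by simp only; omega, ?_, ?_⟩
    · rintro n hn ⟨h1, h2⟩
      simp only at h1 h2
      obtain ⟨r, rfl⟩ : ∃ r, n = a + r := ⟨n - a, by omega⟩
      have h3 : of c k i < r := by omega
      have h4 : r < of c k (i + 1) := by omega
      have h5 : of c k (i + 1) ≤ of c k m := of_mono c k i.2
      refine hω.2 (a + r) (mem_shf.2 ⟨r, mem_sdiff.2 ⟨mem_range.2 (by omega), fun h6 => ?_⟩, rfl⟩) (mem_tr.1 hn).2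
      obtain ⟨t, ht, h7⟩ := mem_image.1 h6
      rcases Nat.lt_or_ge i.1 t with h8 | h8
      · have := of_mono c k (by omega : i.1 + 1 ≤ t)
        omega
      · have := of_mono c k h8
        omega
    · have h1 : ((a + of c k (i + 1) : ℕ) : ℝ) - ((a + of c k i : ℕ) : ℝ) = gp c k i := by
        rw [hs]
        push_cast
        ring
      simp only
      rw [h1, hg]
      have h2 := Nat.le_ceil (c i * (k * Real.log 2) ^ 2)
      have h3 := Nat.ceil_lt_add_one (mul_nonneg (hc i).le (sq_nonneg ((k : ℝ) * Real.log 2)))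
      rw [abs_of_nonneg (by linarith)]
      linarith

end offs

/-- exponentials dominate powers -/
theorem ev_pow {ε : ℝ} (hε : 0 < ε) (C : ℝ) (r : ℕ) :
    ∀ᶠ k : ℕ in atTop, C * ((k : ℝ) + 1) ^ r ≤ (2 : ℝ) ^ (ε * k) := by
  have hb : 1 < (2 : ℝ) ^ ε := Real.one_lt_rpow (by norm_num) hε
  have h1 := tendsto_pow_const_div_const_pow_of_one_lt r hb
  have h2 : ∀ᶠ k : ℕ in atTop, (k : ℝ) ^ r / ((2 : ℝ) ^ ε) ^ k < 1 / (2 ^ r * (|C| + 1)) :=
    h1.eventually (gt_mem_nhds (by positivity))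
  filter_upwards [h2, eventually_ge_atTop 1] with k hk hk1
  have hk1r : (1 : ℝ) ≤ k := by exact_mod_cast hk1
  have hp : 0 < ((2 : ℝ) ^ ε) ^ k := by positivity
  rw [div_lt_iff₀ hp] at hk
  have e1 : (2 : ℝ) ^ (ε * k) = ((2 : ℝ) ^ ε) ^ k := by
    rw [Real.rpow_mul (by norm_num), Real.rpow_natCast]
  rw [e1]
  have e2 : ((k : ℝ) + 1) ^ r ≤ 2 ^ r * k ^ r := by
    rw [← mul_pow]
    exact pow_le_pow_left₀ (by linarith) (by linarith) r
  have hC := le_abs_self C
  calc C * ((k : ℝ) + 1) ^ r ≤ (|C| + 1) * (2 ^ r * k ^ r) := by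
        apply mul_le_mul (by linarith) e2 (by positivity) (by positivity)
    _ ≤ (|C| + 1) * (2 ^ r * (1 / (2 ^ r * (|C| + 1)) * ((2 : ℝ) ^ ε) ^ k)) := by
        have := hk.le
        gcongr
    _ = ((2 : ℝ) ^ ε) ^ k := by field_simp

/-- **Job SPL** of project SX -/
theorem t_SPL : J_SPL := by
  intro m c β ε hc hε hβ
  have hl0 : 0 < Real.log 2 := Real.log_pos (by norm_num)
  have hl1 : Real.log 2 ≤ 1 := by
    have := Real.log_two_lt_d9
    linarith
  have hl2 : 1 / 2 ≤ Real.log 2 := by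
    have := Real.log_two_gt_d9
    linarith
  set s : ℝ := ∑ i, c i with hs
  have hs0 : 0 ≤ s := sum_nonneg fun i _ => (hc i).le
  set D : ℝ := 1 - s - β with hD
  have hD0 : 0 < D := by rw [hD]; linarith
  set δ : ℝ := D / (2 * (s + 1)) with hδ
  have hδ0 : 0 < δ := by rw [hδ]; positivity
  have hδc : (1 + δ) * s ≤ s + D / 2 := by
    have : δ * s ≤ D / 2 := by
      rw [hδ, div_mul_eq_mul_div, div_le_iff₀ (by positivity)]
      nlinarith
    linarith
  -- the constants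
  set C₁ : ℝ := Real.exp ((1 + δ) * (m + 1)) with hC₁
  have hC₁0 : 0 < C₁ := Real.exp_pos _
  set C₂ : ℝ := s + m + 1 with hC₂
  have hC₂0 : 0 < C₂ := by positivity
  obtain ⟨K, hK⟩ := exists_nat_ge ((1 + δ) / (δ * Real.log 2))
  obtain ⟨K₂, hK₂⟩ := exists_nat_ge (4 / ε)
  filter_upwards [ev_pow (show 0 < D / 2 by linarith) (2 * C₂ * C₁) (m + 3),
    ev_pow (show (0 : ℝ) < 1 by norm_num) (2 * C₂) 2, eventually_ge_atTop (max (max K K₂) 3)]
    with k hk hk1 hkK Ω _ μ _ A hA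
  have hk3 : 3 ≤ k := le_trans (le_max_right _ _) hkK
  have hkK' : K ≤ k := le_trans ((le_max_left _ _).trans (le_max_left _ _)) hkK
  have hkK₂ : K₂ ≤ k := le_trans ((le_max_right _ _).trans (le_max_left _ _)) hkK
  have hk3r : (3 : ℝ) ≤ k := by exact_mod_cast hk3
  have hk0 : (0 : ℝ) < k := by linarith
  have hL : 0 < k * Real.log 2 := by positivity
  have hL1 : 1 ≤ k * Real.log 2 := by nlinarith
  have hδk : 1 + δ ≤ δ * (k * Real.log 2) := by
    have h1 : 0 < δ * Real.log 2 := by positivity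
    rw [div_le_iff₀ h1] at hK
    have h2 : (K : ℝ) ≤ k := by exact_mod_cast hkK'
    have h3 := mul_le_mul_of_nonneg_right h2 h1.le
    linarith
  have hεk : 1 ≤ ε * (k * Real.log 2) ^ 2 := by
    have h2 : (K₂ : ℝ) ≤ k := by exact_mod_cast hkK₂
    have h3 : 4 ≤ k * ε := by
      rw [div_le_iff₀ hε] at hK₂
      nlinarith
    have h4 : (k : ℝ) / 4 ≤ (k * Real.log 2) ^ 2 := by
      have h5 : (k : ℝ) / 2 ≤ k * Real.log 2 := by nlinarith
      have h6 : ((k : ℝ) / 2) ^ 2 ≤ (k * Real.log 2) ^ 2 := pow_le_pow_left₀ (by positivity) h5 2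
      nlinarith
    calc (1 : ℝ) ≤ ε * (k / 4) := by linarith
      _ ≤ _ := mul_le_mul_of_nonneg_left h4 hε.le
  obtain ⟨H, hH⟩ : ∃ H : ℕ, H = of c k m + 1 := ⟨_, rfl⟩
  have hHle : (H : ℝ) ≤ s * (k * Real.log 2) ^ 2 + (m + 1) := by
    rw [hH]
    have := of_le c hc k
    push_cast
    linarith
  have hH1 : (H : ℝ) ≤ C₂ * ((k : ℝ) + 1) ^ 2 := by
    have e1 : (k * Real.log 2) ^ 2 ≤ ((k : ℝ) + 1) ^ 2 := by
      apply pow_le_pow_left₀ hL.le
      have : k * Real.log 2 ≤ k * 1 := by gcongr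
      linarith
    have e2 : s * (k * Real.log 2) ^ 2 ≤ s * ((k : ℝ) + 1) ^ 2 := mul_le_mul_of_nonneg_left e1 hs0
    have e3 : (1 : ℝ) ≤ ((k : ℝ) + 1) ^ 2 := one_le_pow₀ (by linarith)
    have e4 : ((m : ℝ) + 1) * 1 ≤ ((m : ℝ) + 1) * ((k : ℝ) + 1) ^ 2 := by gcongr
    rw [hC₂]
    linarith
  have hHpos : 0 < H := by omega
  obtain ⟨J, hJ⟩ : ∃ J : ℕ, J = 2 ^ k / H := ⟨_, rfl⟩
  have hJ1 : J * H ≤ 2 ^ k := by rw [hJ]; exact Nat.div_mul_le_self _ _
  have hp2 : (0 : ℝ) < (2 : ℝ) ^ k := by positivity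
  have hJ2 : (2 : ℝ) ^ k / (2 * (C₂ * ((k : ℝ) + 1) ^ 2)) ≤ J := by
    have e1 : (2 : ℝ) ^ k < (J + 1) * H := by
      have : 2 ^ k < (J + 1) * H := by
        rw [hJ, mul_comm]
        exact Nat.lt_mul_div_succ _ hHpos
      exact_mod_cast this
    have e2 : (1 : ℝ) ≤ J := by
      by_contra hcon
      have : J = 0 := by
        by_contra h'
        exact hcon (by exact_mod_cast Nat.one_le_iff_ne_zero.2 h')
      rw [this, Nat.cast_zero, zero_add, one_mul] at e1
      have e3 : 2 * C₂ * ((k : ℝ) + 1) ^ 2 ≤ (2 : ℝ) ^ k := by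
        have := hk1
        rwa [one_mul, Real.rpow_natCast] at this
      have e4 : 0 < C₂ * ((k : ℝ) + 1) ^ 2 := by positivity
      linarith
    rw [div_le_iff₀ (by positivity)]
    have e3 : ((J : ℝ) + 1) * H ≤ (2 * J) * (C₂ * ((k : ℝ) + 1) ^ 2) := by
      apply mul_le_mul (by linarith) hH1 (by positivity) (by positivity)
    linarith
  have hBs : oB c k ⊆ range H := by rw [hH]; exact oB_sub c k
  -- the windows
  have hwin : ∀ j ∈ range J, 2 ^ k ≤ 2 ^ k + j * H ∧ 2 ^ k + j * H + H ≤ 2 ^ (k + 1) := by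
    intro j hj
    rw [mem_range] at hj
    have h4 : (j + 1) * H ≤ J * H := Nat.mul_le_mul_right _ hj
    have h5 : (j + 1) * H = j * H + H := by ring
    have h6 : 2 ^ (k + 1) = 2 ^ k + 2 ^ k := by ring
    omega
  -- one event
  have hone : ∀ j ∈ range J, Real.exp (-((s + D / 2) * (k * Real.log 2))) / (C₁ * ((k : ℝ) + 1) ^ (m + 1)) ≤
      μ.real (GP A (oB c k) H (2 ^ k + j * H)) := by
    intro j hj
    obtain ⟨h1, h2⟩ := hwin j hj
    refine le_trans ?_ (GP_low hk3 hA hBs (oB_card c k) h1 h2 hδ0 hδk)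
    have e1 : (1 + δ) * H / (k * Real.log 2) ≤ (s + D / 2) * (k * Real.log 2) + (1 + δ) * (m + 1) := by
      rw [div_le_iff₀ hL]
      have e2 : (H : ℝ) ≤ s * (k * Real.log 2) * (k * Real.log 2) + (m + 1) * (k * Real.log 2) := by
        refine hHle.trans ?_
        have f4 : ((m : ℝ) + 1) * 1 ≤ (m + 1) * (k * Real.log 2) := by gcongr
        have f5 : s * (k * Real.log 2) ^ 2 = s * (k * Real.log 2) * (k * Real.log 2) := by ring
        rw [f5]
        linarith
      have e3 := mul_le_mul_of_nonneg_left e2 (show 0 ≤ 1 + δ by linarith)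
      have e4 : (1 + δ) * s * ((k * Real.log 2) * (k * Real.log 2)) ≤
          (s + D / 2) * ((k * Real.log 2) * (k * Real.log 2)) := by gcongr
      nlinarith
    calc Real.exp (-((s + D / 2) * (k * Real.log 2))) / (C₁ * ((k : ℝ) + 1) ^ (m + 1)) =
          (1 / ((k : ℝ) + 1)) ^ (m + 1) * Real.exp (-((s + D / 2) * (k * Real.log 2) + (1 + δ) * (m + 1))) := by
          rw [neg_add, Real.exp_add, Real.exp_neg ((1 + δ) * (m + 1)), ← hC₁, one_div, inv_pow]
          field_simp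
      _ ≤ (1 / ((k : ℝ) + 1)) ^ (m + 1) * Real.exp (-((1 + δ) * H / (k * Real.log 2))) := by
          apply mul_le_mul_of_nonneg_left _ (by positivity)
          apply Real.exp_le_exp.2
          linarith
  have hM : (2 : ℝ) ^ (β * k) ≤ ∑ j ∈ range J, μ.real (GP A (oB c k) H (2 ^ k + j * H)) := by
    have e1 := Finset.sum_le_sum hone
    rw [sum_const, card_range, nsmul_eq_mul] at e1
    refine le_trans ?_ e1
    have e2 : 0 ≤ Real.exp (-((s + D / 2) * (k * Real.log 2))) / (C₁ * ((k : ℝ) + 1) ^ (m + 1)) := by positivity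
    refine le_trans ?_ (mul_le_mul_of_nonneg_right hJ2 e2)
    have e3 : Real.exp (-((s + D / 2) * (k * Real.log 2))) = (2 : ℝ) ^ (-(s + D / 2) * k) := by
      rw [Real.rpow_def_of_pos (by norm_num)]
      congr 1
      ring
    have e4 : (2 : ℝ) ^ k = (2 : ℝ) ^ ((k : ℝ)) := by rw [Real.rpow_natCast]
    rw [div_mul_div_comm, le_div_iff₀ (by positivity), e3, e4, ← Real.rpow_add (by norm_num)]
    have e5 : (k : ℝ) + -(s + D / 2) * k = β * k + D / 2 * k := by rw [hD]; ring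
    rw [e5, Real.rpow_add (by norm_num)]
    have e6 : 0 ≤ (2 : ℝ) ^ (β * k) := by positivity
    calc (2 : ℝ) ^ (β * k) * (2 * (C₂ * ((k : ℝ) + 1) ^ 2) * (C₁ * (k + 1) ^ (m + 1))) =
          (2 : ℝ) ^ (β * k) * (2 * C₂ * C₁ * ((k : ℝ) + 1) ^ (m + 3)) := by ring
      _ ≤ (2 : ℝ) ^ (β * k) * (2 : ℝ) ^ (D / 2 * k) := mul_le_mul_of_nonneg_left hk e6
  have hsub : {ω | ¬ Pat m c ε k (tr A (block k) ω)} ⊆ ⋂ j ∈ range J, (GP A (oB c k) H (2 ^ k + j * H))ᶜ := by
    intro ω hω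
    rw [Set.mem_iInter₂]
    intro j hj h1
    obtain ⟨h2, h3⟩ := hwin j hj
    refine hω (GP_pat (A := A) (a := 2 ^ k + j * H) c hc hL hεk h2 ?_ ?_)
    · rw [← hH]; exact h3
    · rw [← hH]; exact h1
  refine (measureReal_mono hsub (measure_ne_top _ _)).trans ?_
  rw [real_none_GP hA hBs]
  have h5 : ∏ j ∈ range J, (1 - μ.real (GP A (oB c k) H (2 ^ k + j * H))) ≤
      ∏ j ∈ range J, Real.exp (-μ.real (GP A (oB c k) H (2 ^ k + j * H))) := by
    refine prod_le_prod (fun j _ => ?_) (fun j _ => ?_)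
    · have : μ.real (GP A (oB c k) H (2 ^ k + j * H)) ≤ 1 := measureReal_le_one
      linarith
    · have := Real.add_one_le_exp (-μ.real (GP A (oB c k) H (2 ^ k + j * H)))
      linarith
  refine h5.trans ?_
  rw [← Real.exp_sum, sum_neg_distrib]
  apply Real.exp_le_exp.2
  linarith

end Pool.Agent.Q38.SX
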